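import Pool.Agent.Q23.PP.Stm
import Pool.Agent.Q111.FT.ConvB
import Pool.Agent.Q154.PT.Twist

/-!
# Project PP, job TAU: the anti-automorphism of the reduced algebra

It maps an operator `A` to `U A* U`, where `U` is the multiplication with the sign character.
-/

set_option autoImplicit false

open scoped ENNReal InnerProductSpace
open Pool.Agent.H919R4.ZS
open Pool.Agent.Q111.FT (RR RR_closed smul_lreg_mem adj_lreg valR_inj lreg_one)
open Pool.Agent.Q154.PT.Twist (s U norm_U U_reg_U s_sq s_inv)
open Pool.Agent.Q169.PT.Du (sg sg_single)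
open ContinuousLinearMap (adjoint)

namespace Pool.Agent.Q91.PP

noncomputable section

variable {G : Type} [Group G] (w : G →* ℤˣ)

/-- the multiplication with the character as a bounded operator -/
def UC : L2 G →L[ℂ] L2 G :=
  (U w).mkContinuous 1 (fun f => by rw [norm_U, one_mul])

theorem UC_apply (f : L2 G) : UC w f = U w f := rfl

theorem UC_UC : UC w * UC w = 1 := by
  ext f h
  show s w h * (s w h * f h) = f h
  rw [← mul_assoc, s_sq, one_mul]

theorem UC_lreg (g : G) : UC w * lregL g * UC w = s w g • lregL g := by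
  ext1 f
  exact U_reg_U w g f

/-- the anti-automorphism of the bounded operators -/
def TT (A : L2 G →L[ℂ] L2 G) : L2 G →L[ℂ] L2 G := UC w * adjoint A * UC w

theorem TT_add (A B : L2 G →L[ℂ] L2 G) : TT w (A + B) = TT w A + TT w B := by
  unfold TT
  rw [map_add, mul_add, add_mul]

theorem TT_zero : TT w (0 : L2 G →L[ℂ] L2 G) = 0 := by
  unfold TT
  rw [map_zero, mul_zero, zero_mul]

theorem TT_one : TT w (1 : L2 G →L[ℂ] L2 G) = 1 := by
  unfold TT
  have h : adjoint (1 : L2 G →L[ℂ] L2 G) = 1 := ContinuousLinearMap.adjoint_id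
  rw [h, mul_one, UC_UC]

theorem TT_neg (A : L2 G →L[ℂ] L2 G) : TT w (-A) = -TT w A := by
  unfold TT
  rw [map_neg, mul_neg, neg_mul]

theorem TT_mul (A B : L2 G →L[ℂ] L2 G) : TT w (A * B) = TT w B * TT w A := by
  unfold TT
  have h : adjoint (A * B) = adjoint B * adjoint A := ContinuousLinearMap.adjoint_comp A B
  rw [h]
  calc UC w * (adjoint B * adjoint A) * UC w
      = UC w * adjoint B * 1 * adjoint A * UC w := by
        rw [mul_one, mul_assoc, mul_assoc, mul_assoc, mul_assoc]
    _ = UC w * adjoint B * (UC w * UC w) * adjoint A * UC w := by rw [UC_UC]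
    _ = UC w * adjoint B * UC w * (UC w * adjoint A * UC w) := by
        simp only [mul_assoc]

theorem TT_smul_lreg (c : ℂ) (g : G) :
    TT w (c • lregL g) = ((starRingEnd ℂ) c * s w g) • lregL g⁻¹ := by
  unfold TT
  rw [map_smulₛₗ, adj_lreg, mul_smul_comm, smul_mul_assoc, UC_lreg, s_inv, smul_smul]

theorem TT_cont : Continuous (TT w) := by
  unfold TT
  exact (continuous_const.mul (adjoint : (L2 G →L[ℂ] L2 G) ≃ₗᵢ⋆[ℂ] _).continuous).mul
    continuous_const

/-- the operators whose image is in the reduced algebra -/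
def SS : Subring (L2 G →L[ℂ] L2 G) where
  carrier := {A | TT w A ∈ RR G}
  mul_mem' := fun {A B} hA hB => by
    show TT w (A * B) ∈ RR G
    rw [TT_mul]
    exact (RR G).mul_mem hB hA
  one_mem' := by
    show TT w 1 ∈ RR G
    rw [TT_one]
    exact (RR G).one_mem
  add_mem' := fun {A B} hA hB => by
    show TT w (A + B) ∈ RR G
    rw [TT_add]
    exact (RR G).add_mem hA hB
  zero_mem' := by
    show TT w 0 ∈ RR G
    rw [TT_zero]
    exact (RR G).zero_mem
  neg_mem' := fun {A} hA => by
    show TT w (-A) ∈ RR G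
    rw [TT_neg]
    exact (RR G).neg_mem hA

theorem SS_closed : IsClosed (SS w : Set (L2 G →L[ℂ] L2 G)) :=
  RR_closed.preimage (TT_cont w)

theorem group_le : groupRing G ≤ SS w := by
  refine Subring.closure_le.2 ?_
  rintro A ⟨c, g, rfl⟩
  show TT w (c • lregL g) ∈ RR G
  rw [TT_smul_lreg]
  exact smul_lreg_mem _ _

theorem RR_le : RR G ≤ SS w :=
  Subring.topologicalClosure_minimal (groupRing G) (group_le w) (SS_closed w)

theorem TT_mem (x : RedC G) : TT w (valR x) ∈ RR G :=
  RR_le w (Subtype.property (p := fun y => y ∈ redCstar G) x)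

/-- the anti-automorphism of the reduced algebra -/
def tauF (x : RedC G) : RedC G := (⟨TT w (valR x), TT_mem w x⟩ : redCstar G)

theorem val_tauF (x : RedC G) : valR (tauF w x) = TT w (valR x) := rfl

theorem tauF_add (x y : RedC G) : tauF w (x + y) = tauF w x + tauF w y := by
  apply valR_inj
  rw [map_add, val_tauF, val_tauF, val_tauF, map_add, TT_add]

theorem tauF_mul (x y : RedC G) : tauF w (x * y) = tauF w y * tauF w x := by
  apply valR_inj
  rw [map_mul, val_tauF, val_tauF, val_tauF, map_mul, TT_mul]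

theorem tauF_one : tauF w (1 : RedC G) = 1 := by
  apply valR_inj
  rw [map_one, val_tauF, map_one, TT_one]

theorem TT_L (a : MonoidAlgebra ℤ G) : TT w (L a) = L (sg w a) := by
  refine MonoidAlgebra.induction_linear a ?_ ?_ ?_
  · rw [map_zero, map_zero, map_zero, TT_zero]
  · intro x y hx hy
    rw [map_add, map_add, map_add, TT_add, hx, hy]
  · intro g r
    rw [sg_single, L_single, L_single, ← Int.cast_smul_eq_zsmul ℂ r,
      ← Int.cast_smul_eq_zsmul ℂ ((w g : ℤ) * r), TT_smul_lreg]
    congr 1
    rw [Int.cast_mul, mul_comm]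
    congr 1
    simp

end

/-- JOB TAU -/
theorem tau : Pool.Agent.Q23.PP.S_tau := by
  intro G _ w
  refine ⟨AddMonoidHom.mk' (tauF w) (tauF_add w), tauF_mul w, tauF_one w, ?_⟩
  intro a
  apply valR_inj
  show TT w (valR (toRed G a)) = valR (toRed G (sg w a))
  rw [coe_toRed, coe_toRed]
  exact TT_L w a

end Pool.Agent.Q91.PP
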